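import Pool.Agent.Helper66_D2.Stmts
import Pool.Agent.Helper66_D1.Tool
import Pool.Agent.Helper75_PP.Corner
import Pool.Agent.Helper75_PP.Conj

/-!
# Part D2: the action of the group ring on a representation, elements supported on a subgroup
-/

open scoped BigOperators

set_option linter.unusedSectionVars false

noncomputable section

namespace Pool.Agent.PP.CD2.H20

open Pool.Agent.Helper51_AWC Pool.Agent.Helper79_WRA Pool.Agent.PP

variable {F : Type} [Field F] {G : Type} [Group G] [Finite G] {V V' : Type} [AddCommGroup V]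
  [Module F V] [AddCommGroup V'] [Module F V']

/-- the action as the algebra homomorphism -/
theorem evV_eq (ρ : Representation F G V) (a : G → F) : evV ρ a = ρ.asAlgebraHom (ma a) := by
  have := Fintype.ofFinite G
  have h : ma a = ∑ t : G, MonoidAlgebra.single t (a t) := by
    rw [ma_eq_sum, finsum_eq_sum_of_fintype]
  rw [h, map_sum]
  unfold evV
  rw [finsum_eq_sum_of_fintype]
  refine Finset.sum_congr rfl fun g _ => ?_
  rw [Representation.asAlgebraHom_single]

theorem evV_mulF (ρ : Representation F G V) (a b : G → F) :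
    evV ρ (mulF a b) = evV ρ a * evV ρ b := by
  rw [evV_eq, evV_eq, evV_eq, ma_mul, map_mul]

theorem evV_mulF_apply (ρ : Representation F G V) (a b : G → F) (v : V) :
    evV ρ (mulF a b) v = evV ρ a (evV ρ b v) := by
  rw [evV_mulF, Module.End.mul_apply]

theorem evV_dl (ρ : Representation F G V) (g : G) : evV ρ (dl F g) = ρ g := by
  rw [evV_eq, ma_dl, Representation.asAlgebraHom_single, one_smul]

theorem evV_sum {ι : Type*} (ρ : Representation F G V) (s : Finset ι) (a : ι → G → F) :
    evV ρ (∑ k ∈ s, a k) = ∑ k ∈ s, evV ρ (a k) := by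
  rw [evV_eq, ma_sum, map_sum]
  exact Finset.sum_congr rfl fun k _ => (evV_eq ρ (a k)).symm

theorem evV_smul (ρ : Representation F G V) (c : F) (a : G → F) :
    evV ρ (c • a) = c • evV ρ a := by
  rw [evV_eq, ma_smul, map_smul, evV_eq]

theorem evV_zero (ρ : Representation F G V) : evV ρ (0 : G → F) = 0 := by
  rw [evV_eq, ma_zero, map_zero]

theorem evV_pwF (ρ : Representation F G V) (w a : G → F) (s : ℕ) :
    evV ρ (pwF w s a) = evV ρ w ^ s * evV ρ a := by
  unfold pwF
  rw [evV_eq, ma_iterate, map_mul, map_pow, evV_eq, evV_eq]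

theorem ma_pwF (w a : G → F) (s : ℕ) : ma (pwF w s a) = ma w ^ s * ma a := ma_iterate w a s

theorem ma_pwR (w a : G → F) (s : ℕ) : ma (pwR w s a) = ma a * ma w ^ s := by
  induction s with
  | zero => rw [pow_zero, mul_one]; rfl
  | succ s ih =>
    have h : pwR w (s + 1) a = mulF (pwR w s a) w := Function.iterate_succ_apply' _ _ _
    rw [h, ma_mul, ih, mul_assoc, pow_succ]

theorem spF_mulF {C : Subgroup G} {a b : G → F} (ha : SpF C a) (hb : SpF C b) :
    SpF C (mulF a b) := H75.mulF_supp C ha hb

theorem spF_sum {ι : Type*} {C : Subgroup G} (s : Finset ι) {a : ι → G → F}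
    (ha : ∀ k ∈ s, SpF C (a k)) : SpF C (∑ k ∈ s, a k) := by
  intro x hx
  rw [Finset.sum_apply]
  exact Finset.sum_eq_zero fun k hk => ha k hk x hx

theorem spF_dl {C : Subgroup G} {c : G} (hc : c ∈ C) : SpF C (dl F c) := by
  intro x hx
  have h : x ≠ c := fun h => hx (h ▸ hc)
  simp [dl, h]

/-- an element commuting with `C` commutes with the elements supported on `C` -/
theorem cmF_comm {C : Subgroup G} {a c : G → F} (ha : SpF C a) (hc : CmF C c) :
    ma a * ma c = ma c * ma a := by
  rw [← ma_mul, ← ma_mul]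
  refine congrArg ma (H75.mulF_comm_of (K := C) ha ?_)
  intro k hk
  rw [H75.cj_eq_iff]
  exact fun x => hc k hk x

end Pool.Agent.PP.CD2.H20
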