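import Pool.Agent.Helper20_D2.Ums
import Pool.Agent.Helper91_D1.Fr1
import Pool.Agent.Helper26_D1.Ebv

/-!
# Part D2, module FRA: if `fixW ≤ rngW` then `V` is projective for `N`
-/

open scoped BigOperators

set_option linter.unusedSectionVars false

noncomputable section

namespace Pool.Agent.PP.CD2.H20

open Pool.Agent.Helper51_AWC Pool.Agent.Helper79_WRA Pool.Agent.PP

/-- the generators of the subgroup of order `ℓ` -/
theorem zp_eq {G : Type} [Group G] [Finite G] {ℓ n : ℕ} [hℓ : Fact ℓ.Prime] {y y₁ : G}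
    (hy : orderOf y = ℓ ^ (n + 1)) (hy₁ : y₁ ∈ Subgroup.zpowers y) (ho : orderOf y₁ = ℓ) :
    Subgroup.zpowers (y ^ ℓ ^ n) = Subgroup.zpowers y₁ := by
  have hpos : 0 < ℓ := hℓ.out.pos
  have hz : orderOf (y ^ ℓ ^ n) = ℓ := by
    rw [orderOf_pow, hy, Nat.gcd_eq_right (pow_dvd_pow ℓ (Nat.le_succ n)), pow_succ,
      Nat.mul_div_cancel_left _ (pow_pos hpos n)]
  symm
  apply Subgroup.eq_of_le_of_card_ge
  · rw [Subgroup.zpowers_le]
    rw [← mem_powers_iff_mem_zpowers] at hy₁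
    obtain ⟨k, rfl⟩ := hy₁
    have h1 : (y ^ k) ^ ℓ = 1 := by
      have := pow_orderOf_eq_one (y ^ k)
      rwa [ho] at this
    rw [← pow_mul] at h1
    have h2 := orderOf_dvd_of_pow_eq_one h1
    rw [hy, pow_succ] at h2
    obtain ⟨m, rfl⟩ := Nat.dvd_of_mul_dvd_mul_right hpos h2
    change y ^ (ℓ ^ n * m) ∈ _
    rw [pow_mul]
    exact Subgroup.pow_mem _ (Subgroup.mem_zpowers _) m
  · rw [Nat.card_zpowers, Nat.card_zpowers, hz, ho]

/-- `(ρ y - 1) ^ (ℓ ^ n) = ρ (y ^ ℓ ^ n) - 1` -/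
theorem sub_pow_q {F : Type} [Field F] {G : Type} [Group G] {V : Type} [AddCommGroup V]
    [Module F V] (ℓ : ℕ) [Fact ℓ.Prime] [CharP F ℓ] (ρ : Representation F G V) (y : G) (n : ℕ) :
    (ρ y - 1) ^ (ℓ ^ n) = ρ (y ^ ℓ ^ n) - 1 := by
  have h : ((Polynomial.X : Polynomial F) - 1) ^ (ℓ ^ n) = Polynomial.X ^ (ℓ ^ n) - 1 := by
    rw [sub_pow_char_pow, one_pow]
  have h2 := congrArg (Polynomial.aeval (R := F) (A := Module.End F V) (ρ y)) h
  simp only [map_pow, map_sub, Polynomial.aeval_X, map_one] at h2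
  rw [map_pow]
  exact h2

/-- the step from the subgroup of order `ℓ` to `P` -/
theorem fix_nrm_up {F : Type} [Field F] {V : Type} [AddCommGroup V] [Module F V]
    (T : Module.End F V) (q' q : ℕ) (hq' : 1 ≤ q') (hq : 2 * q' ≤ q)
    (h : ∀ v, (T ^ q') v = 0 → ∃ u, v = (T ^ (q - q')) u) :
    ∀ v, T v = 0 → ∃ u, v = (T ^ (q - 1)) u := by
  intro v hv
  have h1 : (T ^ q') v = 0 := by
    obtain ⟨r, rfl⟩ : ∃ r, q' = r + 1 := ⟨q' - 1, by omega⟩
    rw [pow_succ, Module.End.mul_apply, hv, map_zero]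
  obtain ⟨u, hu⟩ := h v h1
  have h2 : (T ^ q') ((T ^ (q - 2 * q' + 1)) u) = 0 := by
    rw [← Module.End.mul_apply, ← pow_add]
    have e : q' + (q - 2 * q' + 1) = 1 + (q - q') := by omega
    rw [e, pow_add, pow_one, Module.End.mul_apply, ← hu, hv]
  obtain ⟨u', hu'⟩ := h _ h2
  refine ⟨u', ?_⟩
  have e1 : q - q' = (q' - 1) + (q - 2 * q' + 1) := by omega
  have e2 : q - 1 = (q' - 1) + (q - q') := by omega
  rw [e2, pow_add, Module.End.mul_apply, ← hu', ← Module.End.mul_apply, ← pow_add, ← e1]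
  exact hu

/-- the induction for `w` -/
theorem ker_pow_w {F : Type} [Field F] {V : Type} [AddCommGroup V] [Module F V]
    (W B : Module.End F V) (q : ℕ) (hq : 2 ≤ q) (c2 : ∀ v, B (B v) = B v)
    (c3 : ∀ v, B (W v) = W v) (c4 : ∀ v, W (B v) = W v)
    (hfix : ∀ v, B v = v → W v = 0 → ∃ u, v = (W ^ (q - 1)) u) :
    ∀ j, j ≤ q → ∀ v, B v = v → (W ^ j) v = 0 → ∃ u, v = (W ^ (q - j)) u := by
  have c3' : ∀ (j : ℕ) (v : V), B v = v → B ((W ^ j) v) = (W ^ j) v := by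
    intro j v hv
    rcases j with _ | j
    · rw [pow_zero]; exact hv
    · rw [pow_succ', Module.End.mul_apply, c3]
  intro j
  induction j with
  | zero =>
    intro _ v _ hv
    rw [pow_zero] at hv
    refine ⟨0, ?_⟩
    rw [map_zero]
    exact hv
  | succ j ih =>
    intro hj v hBv hv
    have hz : W ((W ^ j) v) = 0 := by
      rw [← Module.End.mul_apply, ← pow_succ']
      exact hv
    obtain ⟨u₁, hu₁⟩ := hfix _ (c3' j v hBv) hz
    have hu2 : (W ^ (q - 1)) (B u₁) = (W ^ (q - 1)) u₁ := by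
      obtain ⟨r, hr⟩ : ∃ r, q - 1 = r + 1 := ⟨q - 2, by omega⟩
      rw [hr, pow_succ, Module.End.mul_apply, Module.End.mul_apply, c4]
    have hB : B ((W ^ (q - 1 - j)) (B u₁)) = (W ^ (q - 1 - j)) (B u₁) := c3' _ _ (c2 u₁)
    obtain ⟨u', hu'⟩ := ih (by omega) (v - (W ^ (q - 1 - j)) (B u₁))
      (by rw [map_sub, hBv, hB]) (by
        rw [map_sub, ← Module.End.mul_apply (W ^ j) (W ^ (q - 1 - j)), ← pow_add]
        have e : j + (q - 1 - j) = q - 1 := by omega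
        rw [e, hu2, ← hu₁, sub_self])
    refine ⟨B u₁ + W u', ?_⟩
    have e1 : q - (j + 1) = q - 1 - j := by omega
    have e2 : q - j = q - (j + 1) + 1 := by omega
    rw [map_add, ← Module.End.mul_apply (W ^ (q - (j + 1))) W, ← pow_succ, ← e2, ← hu', e1]
    abel

/-- FRA -/
theorem fra (hwgt : WgtStmt) (hfrc : FrcStmt) (hebv : EbvStmt) : FraStmt := by
  intro ℓ hℓ F _ hF G _ _ n N P y₁ b w h V _ _ _ ρ hb hfix
  have := hF.char
  have := Fintype.ofFinite G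
  have hq2 : 2 ≤ ℓ ^ (n + 1) := by
    calc 2 ≤ ℓ := hℓ.out.two_le
      _ = ℓ ^ 1 := (pow_one _).symm
      _ ≤ ℓ ^ (n + 1) := Nat.pow_le_pow_right hℓ.out.pos (by omega)
  have hq1 : 1 ≤ ℓ ^ n := Nat.one_le_iff_ne_zero.2 (pow_ne_zero _ hℓ.out.ne_zero)
  have hqq : 2 * ℓ ^ n ≤ ℓ ^ (n + 1) := by
    rw [pow_succ, mul_comm]
    exact Nat.mul_le_mul_left _ hℓ.out.two_le
  have hqs : ℓ ^ (n + 1) - ℓ ^ n = ℓ ^ n * (ℓ - 1) := by
    rw [pow_succ, Nat.mul_sub, mul_one]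
  obtain ⟨c1, c2, c3, c4, c5, c6, c7, c8, c9, c10, c11⟩ := stw ℓ F hF G n N P y₁ b w h V ρ
  have claim1 := ker_pow_w (evV ρ w) (evV ρ (bY y₁ b)) (ℓ ^ (n + 1)) hq2 c2 c3 c4 (by
    intro v h1 h2
    obtain ⟨u, hu⟩ := hfix (show v ∈ fixW ρ (bY y₁ b) w from ⟨h1, h2⟩)
    exact ⟨u, hu.symm⟩)
  have hcard1 : Nat.card (Subgroup.zpowers y₁) = ℓ := by rw [Nat.card_zpowers, h.ord]
  have hmem1 : y₁ ∈ NY y₁ := Subgroup.le_normalizer (Subgroup.mem_zpowers y₁)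
  -- step 2
  have step2 : fixV ρ (Subgroup.zpowers y₁) ≤ nrmV ρ (Subgroup.zpowers y₁) := by
    intro v hv
    have h1 := hebv ℓ F G (Subgroup.zpowers y₁) hcard1 V ρ b (fun p _ x => h.idem.1 x p) v hv
    rw [hb] at h1
    change v - evV ρ (bY y₁ b) v ∈ _ at h1
    have h2 : evV ρ (bY y₁ b) v ∈ nrmV ρ (Subgroup.zpowers y₁) := by
      have e1 : ((evV ρ w) ^ (ℓ ^ n)) (evV ρ (bY y₁ b) v) = 0 := by
        rw [c11, c2, ← c1 y₁ hmem1, hv y₁ (Subgroup.mem_zpowers y₁), sub_self]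
      obtain ⟨u, hu⟩ := claim1 (ℓ ^ n) (by omega) _ (c2 v) e1
      rw [hu, hqs, pow_mul]
      have e2 : (evV ρ w) ^ (ℓ ^ n) = (ρ y₁ - 1) * evV ρ (bY y₁ b) := by
        apply LinearMap.ext
        intro x
        rw [c11]
        rfl
      have e3 : Commute (ρ y₁ - 1) (evV ρ (bY y₁ b)) := by
        apply Commute.sub_left _ (Commute.one_left _)
        apply LinearMap.ext
        intro x
        exact (c1 y₁ hmem1 x).symm
      rw [e2, e3.mul_pow, Module.End.mul_apply]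
      unfold nrmV
      rw [H36.nrm_eq (D66.isP hcard1) y₁ rfl ρ, hcard1]
      exact ⟨_, rfl⟩
    have h3 := add_mem h1 h2
    rwa [sub_add_cancel] at h3
  -- step 3
  have hcyc := h.cyc
  obtain ⟨⟨y, hyP⟩, hgen⟩ := hcyc.exists_generator
  have hyz : Subgroup.zpowers y = P := by
    apply le_antisymm
    · rw [Subgroup.zpowers_le]
      exact hyP
    · intro x hx
      obtain ⟨k, hk⟩ := Subgroup.mem_zpowers_iff.1 (hgen ⟨x, hx⟩)
      rw [Subgroup.mem_zpowers_iff]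
      refine ⟨k, ?_⟩
      have := congrArg Subtype.val hk
      simpa using this
  have hoy : orderOf y = ℓ ^ (n + 1) := by rw [← Nat.card_zpowers, hyz, h.card]
  have hz := zp_eq hoy (by rw [hyz]; exact h.mem) h.ord
  have hP : IsPGroup ℓ P := IsPGroup.of_card h.card
  have step3 : fixV ρ P ≤ nrmV ρ P := by
    intro v hv
    rw [D66.mem_fix hyz ρ] at hv
    unfold nrmV
    rw [H36.nrm_eq hP y hyz ρ, h.card]
    obtain ⟨u, hu⟩ := fix_nrm_up (ρ y - 1) (ℓ ^ n) (ℓ ^ (n + 1)) hq1 hqq (by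
      intro x hx
      have h1 : x ∈ fixV ρ (Subgroup.zpowers y₁) := by
        rw [D66.mem_fix hz ρ, ← sub_pow_q ℓ ρ y n]
        exact hx
      have h2 := step2 h1
      unfold nrmV at h2
      rw [H36.nrm_eq (D66.isP hcard1) (y ^ ℓ ^ n) hz ρ, hcard1, ← sub_pow_q ℓ ρ y n, ← pow_mul,
        ← hqs] at h2
      obtain ⟨u, hu⟩ := h2
      exact ⟨u, hu.symm⟩) v hv
    exact ⟨u, hu.symm⟩
  -- step 4
  obtain ⟨φ, hφ⟩ := hfrc ℓ F hF.char G P hP hcyc V ρ step3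
  obtain ⟨c, z, hc, hz, hzp, hbz⟩ := h.prj
  obtain ⟨-, hw⟩ := hwgt F G N P h.le
  obtain ⟨-, hw2⟩ := hw V V ρ ρ c hc
  have hcomm := D1.H91.evV_comm ρ P z hzp
  refine ⟨evV ρ z ∘ₗ φ, ?_⟩
  rw [← hw2, D1.H91.trP_comp _ _ _ _ hcomm, hφ, LinearMap.comp_id,
    ← D1.H91.evV_prj ρ b c z hbz]
  apply LinearMap.ext
  intro v
  rw [hb]
  rfl

end Pool.Agent.PP.CD2.H20
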