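import Pool.Agent.Helper20_D2.Tool

/-!
# Part D2, module SEP
-/

open scoped BigOperators

set_option linter.unusedSectionVars false

noncomputable section

namespace Pool.Agent.PP.CD2.H20

open Pool.Agent.Helper51_AWC Pool.Agent.Helper79_WRA Pool.Agent.PP

variable {F : Type} [Field F] {G : Type} [Group G] [Finite G] {V V' : Type} [AddCommGroup V]
  [Module F V] [AddCommGroup V'] [Module F V']

/-- the action of the algebra -/
abbrev aV (ρ : Representation F G V) : MonoidAlgebra F G →ₐ[F] Module.End F V := ρ.asAlgebraHom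

theorem aV_mem {C : Subgroup G} {ρ : Representation F G V} {T : Submodule F V} (hT : Stb C ρ T)
    {a : G → F} (ha : SpF C a) {v : V} (hv : v ∈ T) : aV ρ (ma a) v ∈ T := by
  have h := D66.evV_mem hT ha hv
  rwa [evV_eq] at h

/-- polynomials in `w` commute with `g` -/
theorem poly_comm {C : Subgroup G} {w : G → F} (hw : SpF C w) {ρ : Representation F G V}
    {ρ' : Representation F G V'} {T : Submodule F V} (hT : Stb C ρ T) {g : V →ₗ[F] V'}
    (hg : ∀ v ∈ T, g (aV ρ (ma w) v) = aV ρ' (ma w) (g v)) (q : ℕ) (α : ℕ → F) {v : V}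
    (hv : v ∈ T) :
    g (aV ρ (∑ s ∈ Finset.range q, α s • ma w ^ s) v) =
      aV ρ' (∑ s ∈ Finset.range q, α s • ma w ^ s) (g v) := by
  have hp : ∀ s : ℕ, ∀ v ∈ T, aV ρ (ma w ^ s) v ∈ T ∧
      g (aV ρ (ma w ^ s) v) = aV ρ' (ma w ^ s) (g v) := by
    intro s
    induction s with
    | zero =>
      intro v hv
      rw [pow_zero, map_one, map_one]
      exact ⟨hv, rfl⟩
    | succ s ih =>
      intro v hv
      have h1 := ih v hv
      have h2 : ∀ (W : Type) [AddCommGroup W] [Module F W] (τ : Representation F G W) (u : W),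
          aV τ (ma w ^ (s + 1)) u = aV τ (ma w) (aV τ (ma w ^ s) u) := by
        intro W _ _ τ u
        rw [pow_succ', map_mul, Module.End.mul_apply]
      rw [h2, h2]
      refine ⟨aV_mem hT hw h1.1, ?_⟩
      rw [hg _ h1.1, h1.2]
  rw [map_sum, map_sum, LinearMap.sum_apply, LinearMap.sum_apply, map_sum]
  refine Finset.sum_congr rfl fun s _ => ?_
  rw [map_smul, map_smul, LinearMap.smul_apply, LinearMap.smul_apply, map_smul, (hp s v hv).2]

/-- one algebra -/
theorem sep_one {C : Subgroup G} {e w i : G → F} {q : ℕ} (hw : SpF C w) (hcw : CmF C w)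
    (h : UMF C e (mulF e w) i q) {m : ℕ} {x y : Fin m → G → F}
    (hxy : ∀ k, SpF C (x k) ∧ SpF C (y k)) (hs : ∑ k, mulF (x k) (mulF i (y k)) = e)
    {ρ : Representation F G V} {ρ' : Representation F G V'} {T : Submodule F V}
    (hT : Stb C ρ T) {g : V →ₗ[F] V'}
    (hg : ∀ v ∈ T, g (evV ρ w v) = evV ρ' w (g v)) {a : G → F} (ha : SpF C a) {v : V}
    (hv : v ∈ T) :
    ∑ k, evV ρ' (mulF (mulF e (x k)) i) (g (evV ρ (mulF i (mulF (y k) e)) (evV ρ a v))) =
      evV ρ' a (∑ k, evV ρ' (mulF (mulF e (x k)) i) (g (evV ρ (mulF i (mulF (y k) e)) v))) := by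
  have hg' : ∀ v ∈ T, g (aV ρ (ma w) v) = aV ρ' (ma w) (g v) := by
    intro v hv
    have := hg v hv
    rwa [evV_eq, evV_eq] at this
  obtain ⟨A, hA⟩ : ∃ A, A = ma a := ⟨_, rfl⟩
  obtain ⟨E, hE⟩ : ∃ E, E = ma e := ⟨_, rfl⟩
  obtain ⟨W, hW⟩ : ∃ W, W = ma w := ⟨_, rfl⟩
  obtain ⟨I, hI⟩ : ∃ I, I = ma i := ⟨_, rfl⟩
  obtain ⟨X, hX⟩ : ∃ X : Fin m → MonoidAlgebra F G, X = fun k => ma (x k) := ⟨_, rfl⟩
  obtain ⟨Y, hY⟩ : ∃ Y : Fin m → MonoidAlgebra F G, Y = fun k => ma (y k) := ⟨_, rfl⟩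
  have hEc : ∀ c : G → F, SpF C c → E * ma c = ma c * E := by
    intro c hc
    rw [hE]
    exact (cmF_comm hc h.cb).symm
  have hWc : ∀ c : G → F, SpF C c → W * ma c = ma c * W := by
    intro c hc
    rw [hW]
    exact (cmF_comm hc hcw).symm
  have hEE : E * E = E := by rw [hE, ← ma_mul, h.bb]
  have hII : I * I = I := by rw [hI, ← ma_mul, h.ii]
  have hEI : E * I = I := by rw [hE, hI, ← ma_mul, h.bi]
  have hsum : ∑ k, X k * (I * Y k) = E := by
    rw [hE, ← hs, ma_sum]
    refine Finset.sum_congr rfl fun k _ => ?_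
    rw [hX, hY, hI, ma_mul, ma_mul]
  have hWI : W * I = I * W := by rw [hI]; exact hWc i h.si
  have hEWI : ∀ s : ℕ, (E * W) ^ s * I = W ^ s * I := by
    intro s
    induction s with
    | zero => rw [pow_zero, pow_zero]
    | succ s ih =>
      rw [pow_succ, pow_succ, mul_assoc, mul_assoc (W ^ s), mul_assoc E, hWI, ← mul_assoc E, hEI,
        ← mul_assoc, ih, mul_assoc]
  have hYE : ∀ l, Y l * E = E * Y l := by
    intro l
    rw [hY]
    exact (hEc _ (hxy l).2).symm
  have hAE : A * E = E * A := by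
    rw [hA]
    exact (hEc _ ha).symm
  have hloc : ∀ l k, ∃ α : ℕ → F, I * (Y l * (A * (E * X k)) * I) =
      (∑ s ∈ Finset.range q, α s • W ^ s) * I := by
    intro l k
    obtain ⟨α, hα⟩ := h.loc (mulF (y l) (mulF a (mulF e (x k))))
      (spF_mulF (hxy l).2 (spF_mulF ha (spF_mulF h.sb (hxy k).1)))
    refine ⟨α, ?_⟩
    have h1 := congrArg ma hα
    rw [ma_mul, ma_mul, ma_mul, ma_mul, ma_mul, ma_sum] at h1
    rw [hI, hY, hA, hE, hX, h1, Finset.sum_mul]
    refine Finset.sum_congr rfl fun s _ => ?_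
    rw [ma_smul, ma_pwF, ma_mul, smul_mul_assoc, ← hE, ← hW, ← hI, hEWI]
  choose α hα using hloc
  obtain ⟨P, hP⟩ : ∃ P : Fin m → Fin m → MonoidAlgebra F G,
      P = fun l k => ∑ s ∈ Finset.range q, α l k s • W ^ s := ⟨_, rfl⟩
  have hPI : ∀ l k, P l k * I = I * P l k := by
    intro l k
    rw [hP]
    have h1 : ∀ s : ℕ, Commute (W ^ s) I := fun s => Commute.pow_left hWI s
    have h2 : Commute (∑ s ∈ Finset.range q, α l k s • W ^ s) I :=
      Commute.sum_left _ _ _ fun s _ => (h1 s).smul_left _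
    exact h2
  have hα' : ∀ l k, I * (Y l * (A * (E * X k)) * I) = P l k * I := by
    intro l k
    rw [hα l k, hP]
  have hR : ∀ k, A * (E * X k * I) = ∑ l, (E * X l * I) * P l k := by
    intro k
    have h9 : E * E * A * E = A * E := by rw [hEE, ← hAE, mul_assoc, hEE]
    calc A * (E * X k * I) = (A * E) * (X k * I) := by simp only [mul_assoc]
      _ = (E * E * A * E) * (X k * I) := by rw [h9]
      _ = E * E * (A * (E * X k) * I) := by simp only [mul_assoc]
      _ = E * (∑ l, X l * (I * Y l)) * (A * (E * X k) * I) := by rw [hsum]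
      _ = ∑ l, (E * X l * I) * P l k := by
          rw [Finset.mul_sum, Finset.sum_mul]
          refine Finset.sum_congr rfl fun l _ => ?_
          have h1 : (E * X l * I) * P l k = E * X l * (I * (Y l * (A * (E * X k)) * I)) := by
            rw [hα', hPI, ← mul_assoc, mul_assoc (E * X l) I (P l k)]
          rw [h1]
          simp only [mul_assoc]
  have hL : ∀ l, (I * (Y l * E)) * A = ∑ k, P l k * (I * (Y k * E)) := by
    intro l
    have h1 : ∀ k, P l k * (I * (Y k * E)) = I * Y l * A * E * (X k * (I * Y k)) * E := by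
      intro k
      rw [← mul_assoc, ← hα']
      simp only [mul_assoc]
    rw [Finset.sum_congr rfl fun k _ => h1 k, ← Finset.sum_mul, ← Finset.mul_sum, hsum]
    rw [mul_assoc (I * Y l * A * E), hEE, mul_assoc (I * Y l * A), hEE, mul_assoc (I * Y l), hAE]
    simp only [mul_assoc]
  have e1 : ∀ (W' : Type) [AddCommGroup W'] [Module F W'] (τ : Representation F G W') (k : Fin m),
      evV τ (mulF (mulF e (x k)) i) = aV τ (E * X k * I) := by
    intro W' _ _ τ k
    rw [evV_eq, ma_mul, ma_mul, hE, hX, hI]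
  have e2 : ∀ (W' : Type) [AddCommGroup W'] [Module F W'] (τ : Representation F G W') (k : Fin m),
      evV τ (mulF i (mulF (y k) e)) = aV τ (I * (Y k * E)) := by
    intro W' _ _ τ k
    rw [evV_eq, ma_mul, ma_mul, hE, hY, hI]
  have e3 : ∀ (W' : Type) [AddCommGroup W'] [Module F W'] (τ : Representation F G W'),
      evV τ a = aV τ A := by
    intro W' _ _ τ
    rw [evV_eq, hA]
  have hmem : ∀ k, aV ρ (I * (Y k * E)) v ∈ T := by
    intro k
    rw [← e2]
    exact D66.evV_mem hT (spF_mulF h.si (spF_mulF (hxy k).2 h.sb)) hv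
  have l1 : ∀ l, g (aV ρ (I * (Y l * E)) (aV ρ A v)) =
      ∑ k, aV ρ' (P l k) (g (aV ρ (I * (Y k * E)) v)) := by
    intro l
    rw [← Module.End.mul_apply, ← map_mul, hL, map_sum, LinearMap.sum_apply, map_sum]
    refine Finset.sum_congr rfl fun k _ => ?_
    rw [map_mul, Module.End.mul_apply, hP, hW]
    exact poly_comm hw hT hg' q (α l k) (hmem k)
  rw [Finset.sum_congr rfl fun k _ => by rw [e1, e2, e3, l1, map_sum]]
  rw [Finset.sum_comm, map_sum]
  refine Finset.sum_congr rfl fun k _ => ?_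
  rw [e1, e2, e3, ← Module.End.mul_apply, ← map_mul, hR, map_sum, LinearMap.sum_apply]
  refine Finset.sum_congr rfl fun l _ => ?_
  rw [map_mul (aV ρ') (E * X l * I) (P l k), Module.End.mul_apply]

/-- SEP -/
theorem sep : SepStmt := by
  intro F _ G _ _ C b w q hU
  obtain ⟨m, e, i, hUM, hort, hsum, hbw⟩ := hU
  have hw : SpF C w := by
    rw [← hbw, ← hsum]
    intro x hx
    have h1 : mulF (∑ t, e t) w = ∑ t, mulF (e t) w := by
      apply ma_injective
      rw [ma_mul, ma_sum, ma_sum, Finset.sum_mul]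
      exact Finset.sum_congr rfl fun t _ => (ma_mul _ _).symm
    rw [h1]
    exact spF_sum _ (fun t _ => (hUM t).sw) x hx
  have hcw : CmF C w := by
    intro c hc x
    rw [← hbw, ← hsum]
    have h1 : mulF (∑ t, e t) w = ∑ t, mulF (e t) w := by
      apply ma_injective
      rw [ma_mul, ma_sum, ma_sum, Finset.sum_mul]
      exact Finset.sum_congr rfl fun t _ => (ma_mul _ _).symm
    rw [h1, Finset.sum_apply, Finset.sum_apply]
    exact Finset.sum_congr rfl fun t _ => (hUM t).cw c hc x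
  choose n x y hxy hs using fun t => (hUM t).full
  let eq : (Σ t : Fin m, Fin (n t)) ≃ Fin (Fintype.card (Σ t : Fin m, Fin (n t))) :=
    Fintype.equivFin _
  obtain ⟨X, hX⟩ : ∃ X : (Σ t : Fin m, Fin (n t)) → G → F,
      X = fun k => mulF (mulF (e k.1) (x k.1 k.2)) (i k.1) := ⟨_, rfl⟩
  obtain ⟨Y, hY⟩ : ∃ Y : (Σ t : Fin m, Fin (n t)) → G → F,
      Y = fun k => mulF (i k.1) (mulF (y k.1 k.2) (e k.1)) := ⟨_, rfl⟩
  refine ⟨Fintype.card (Σ t : Fin m, Fin (n t)), fun k => X (eq.symm k), fun k => Y (eq.symm k),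
    ?_, ?_, ?_⟩
  · intro k
    rw [hX, hY]
    exact ⟨spF_mulF (spF_mulF (hUM _).sb (hxy _ _).1) (hUM _).si,
      spF_mulF (hUM _).si (spF_mulF (hxy _ _).2 (hUM _).sb)⟩
  · rw [Fintype.sum_equiv eq.symm _ (fun k => mulF (X k) (Y k)) (fun _ => rfl), Fintype.sum_sigma,
      ← hsum]
    refine Finset.sum_congr rfl fun t _ => ?_
    apply ma_injective
    have h1 := congrArg ma (hs t)
    rw [ma_sum] at h1
    rw [ma_sum]
    have h2 : ∀ k : Fin (n t), ma (mulF (X ⟨t, k⟩) (Y ⟨t, k⟩)) =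
        ma (e t) * ma (mulF (x t k) (mulF (i t) (y t k))) * ma (e t) := by
      intro k
      have hii : ma (i t) * ma (i t) = ma (i t) := by rw [← ma_mul, (hUM t).ii]
      rw [hX, hY]
      simp only [ma_mul]
      calc ma (e t) * ma (x t k) * ma (i t) * (ma (i t) * (ma (y t k) * ma (e t))) =
          ma (e t) * (ma (x t k) * ((ma (i t) * ma (i t)) * ma (y t k))) * ma (e t) := by
            simp only [mul_assoc]
        _ = _ := by rw [hii]
    rw [Finset.sum_congr rfl fun k _ => h2 k, ← Finset.sum_mul, ← Finset.mul_sum, h1, ← ma_mul,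
      ← ma_mul, (hUM t).bb, (hUM t).bb]
  · intro V V' _ _ _ _ ρ ρ' T hT g hg c hc v hv
    rw [LinearMap.sum_apply, LinearMap.sum_apply]
    have h0 : ∀ u : V, (∑ k, (evV ρ' (X (eq.symm k)) ∘ₗ g ∘ₗ evV ρ (Y (eq.symm k))) u) =
        ∑ t : Fin m, ∑ k : Fin (n t), evV ρ' (X ⟨t, k⟩) (g (evV ρ (Y ⟨t, k⟩) u)) := by
      intro u
      have h9 := Fintype.sum_equiv eq.symm
        (fun k => evV ρ' (X (eq.symm k)) (g (evV ρ (Y (eq.symm k)) u)))
        (fun k => evV ρ' (X k) (g (evV ρ (Y k) u))) (fun _ => rfl)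
      refine Eq.trans h9 ?_
      rw [Fintype.sum_sigma]
    rw [h0, h0, map_sum]
    refine Finset.sum_congr rfl fun t _ => ?_
    have h1 := sep_one hw hcw (hUM t) (hxy t) (hs t) hT hg (spF_dl hc) hv
    rw [evV_dl, evV_dl] at h1
    rw [hX, hY]
    exact h1

end Pool.Agent.PP.CD2.H20
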