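import Pool.Agent.Helper20_D2.Tool

/-!
# Part D2: first properties of `UMS` and `D2S`; module STW
-/

open scoped BigOperators

set_option linter.unusedSectionVars false

noncomputable section

namespace Pool.Agent.PP.CD2.H20

open Pool.Agent.Helper51_AWC Pool.Agent.Helper79_WRA Pool.Agent.PP

variable {F : Type} [Field F] {G : Type} [Group G] [Finite G] {V V' : Type} [AddCommGroup V]
  [Module F V] [AddCommGroup V'] [Module F V']

theorem mulF_sum_left {ι : Type*} (s : Finset ι) (a : ι → G → F) (c : G → F) :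
    mulF (∑ t ∈ s, a t) c = ∑ t ∈ s, mulF (a t) c := by
  apply ma_injective
  rw [ma_mul, ma_sum, ma_sum, Finset.sum_mul]
  exact Finset.sum_congr rfl fun t _ => (ma_mul _ _).symm

section ums

variable {C : Subgroup G} {b w : G → F} {q : ℕ}

theorem ums_sb (h : UMS C b w q) : SpF C b := by
  obtain ⟨m, e, i, hUM, -, hsum, -⟩ := h
  rw [← hsum]
  exact spF_sum _ fun t _ => (hUM t).sb

theorem ums_cb (h : UMS C b w q) : CmF C b := by
  obtain ⟨m, e, i, hUM, -, hsum, -⟩ := h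
  intro c hc x
  rw [← hsum, Finset.sum_apply, Finset.sum_apply]
  exact Finset.sum_congr rfl fun t _ => (hUM t).cb c hc x

theorem ums_sw (h : UMS C b w q) : SpF C w := by
  obtain ⟨m, e, i, hUM, -, hsum, hbw⟩ := h
  rw [← hbw, ← hsum, mulF_sum_left]
  exact spF_sum _ fun t _ => (hUM t).sw

theorem ums_cw (h : UMS C b w q) : CmF C w := by
  obtain ⟨m, e, i, hUM, -, hsum, hbw⟩ := h
  intro c hc x
  rw [← hbw, ← hsum, mulF_sum_left, Finset.sum_apply, Finset.sum_apply]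
  exact Finset.sum_congr rfl fun t _ => (hUM t).cw c hc x

theorem ums_bw (h : UMS C b w q) : ma b * ma w = ma w := by
  obtain ⟨m, e, i, hUM, -, hsum, hbw⟩ := h
  rw [← ma_mul, hbw]

theorem ums_wb (h : UMS C b w q) : ma w * ma b = ma w := by
  rw [← cmF_comm (ums_sb h) (ums_cw h), ums_bw h]

theorem ums_bb (h : UMS C b w q) : ma b * ma b = ma b := by
  classical
  obtain ⟨m, e, i, hUM, hort, hsum, hbw⟩ := h
  rw [← hsum, ma_sum, Finset.sum_mul]
  refine Finset.sum_congr rfl fun t _ => ?_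
  rw [Finset.mul_sum, Finset.sum_eq_single t]
  · rw [← ma_mul, (hUM t).bb]
  · intro s _ hs
    rw [← ma_mul, hort t s hs.symm, ma_zero]
  · intro h
    exact absurd (Finset.mem_univ _) h

theorem ums_nil (h : UMS C b w q) : ma w ^ q * ma b = 0 := by
  have hcw := ums_cw h
  obtain ⟨m, e, i, hUM, hort, hsum, hbw⟩ := h
  rw [← hsum, ma_sum, Finset.mul_sum]
  refine Finset.sum_eq_zero fun t _ => ?_
  have h1 : ma (mulF (e t) w) ^ q * ma (e t) = 0 := by
    rw [← ma_pwF, (hUM t).nil, ma_zero]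
  have h2 : ma (e t) * ma (e t) = ma (e t) := by rw [← ma_mul, (hUM t).bb]
  have h3 : ma (e t) * ma w = ma w * ma (e t) := cmF_comm (hUM t).sb hcw
  have h4 : ∀ s : ℕ, ma (mulF (e t) w) ^ s * ma (e t) = ma w ^ s * ma (e t) := by
    intro s
    induction s with
    | zero => rw [pow_zero, pow_zero]
    | succ s ih =>
      rw [pow_succ, pow_succ, mul_assoc, ma_mul, mul_assoc (ma (e t)), ← h3, ← mul_assoc (ma (e t)),
        h2, ← mul_assoc, ← ma_mul, ih, mul_assoc, h3, mul_assoc]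
  rw [← h4, h1]

theorem ums_pow_b (h : UMS C b w q) {s : ℕ} (hs : s ≠ 0) : ma w ^ s * ma b = ma w ^ s := by
  obtain ⟨r, rfl⟩ := Nat.exists_eq_succ_of_ne_zero hs
  rw [pow_succ, mul_assoc, ums_wb h]

theorem ums_zero (h : UMS C b w q) (hq : q ≠ 0) : ma w ^ q = 0 := by
  rw [← ums_pow_b h hq, ums_nil h]

end ums

section rep

variable {ℓ n : ℕ} {N P : Subgroup G} {y₁ : G} {b w : G → F}

/-- `br` of a class function commutes with the normaliser -/
theorem bY_conj (hb : IsCl b) {x : G} (hx : x ∈ NY y₁) (t : G) :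
    bY y₁ b (x * t * x⁻¹) = bY y₁ b t := by
  classical
  have h1 : x * t * x⁻¹ ∈ Subgroup.centralizer (Subgroup.zpowers y₁ : Set G) ↔
      t ∈ Subgroup.centralizer (Subgroup.zpowers y₁ : Set G) := by
    have hx' : ∀ z, z ∈ Subgroup.zpowers y₁ ↔ x * z * x⁻¹ ∈ Subgroup.zpowers y₁ :=
      Subgroup.mem_normalizer_iff.1 hx
    rw [Subgroup.mem_centralizer_iff, Subgroup.mem_centralizer_iff]
    constructor
    · intro h z hz
      have h2 := h (x * z * x⁻¹) ((hx' z).1 hz)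
      have h3 : x * (z * t) * x⁻¹ = x * (t * z) * x⁻¹ := by
        calc x * (z * t) * x⁻¹ = x * z * x⁻¹ * (x * t * x⁻¹) := by group
          _ = x * t * x⁻¹ * (x * z * x⁻¹) := h2
          _ = x * (t * z) * x⁻¹ := by group
      exact mul_left_cancel (mul_right_cancel h3)
    · intro h z hz
      have hz' : x⁻¹ * z * x ∈ Subgroup.zpowers y₁ := by
        rw [hx' (x⁻¹ * z * x)]
        have : x * (x⁻¹ * z * x) * x⁻¹ = z := by group
        rwa [this]
      have h2 := h _ hz'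
      calc z * (x * t * x⁻¹) = x * ((x⁻¹ * z * x) * t) * x⁻¹ := by group
        _ = x * (t * (x⁻¹ * z * x)) * x⁻¹ := by rw [h2]
        _ = x * t * x⁻¹ * z := by group
  unfold bY br
  by_cases h : t ∈ Subgroup.centralizer (Subgroup.zpowers y₁ : Set G)
  · rw [if_pos h, if_pos (h1.2 h), hb]
  · rw [if_neg h, if_neg (fun h' => h (h1.1 h'))]

theorem dl_comm {a : G → F} {x : G} (h : ∀ t, a (x * t * x⁻¹) = a t) :
    ma (dl F x) * ma a = ma a * ma (dl F x) := by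
  rw [← ma_mul, ← ma_mul]
  apply congrArg ma
  funext t
  rw [H75.mulF_dl_left, H75.mulF_dl_right]
  have := h (x⁻¹ * t)
  rw [← this]
  congr 1
  group

/-- `w x = x w u` -/
theorem d2s_wx (h : D2S ℓ n N P y₁ b w) {x : G} (hx : x ∈ NY y₁) :
    ∃ u : G → F, SpF (N ⊓ CY y₁) u ∧ CmF (N ⊓ CY y₁) u ∧
      ma w * ma (dl F x) = ma (dl F x) * (ma w * ma u) := by
  obtain ⟨u, h1, h2, h3⟩ := h.eqv x⁻¹ (inv_mem hx)
  refine ⟨u, h1, h2, ?_⟩
  rw [← ma_mul w u, ← h3, ← ma_mul, ← ma_mul]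
  apply congrArg ma
  funext t
  rw [H75.mulF_dl_left, H75.mulF_dl_right]
  congr 1
  group

/-- `x w = w u x` -/
theorem d2s_xw (h : D2S ℓ n N P y₁ b w) {x : G} (hx : x ∈ NY y₁) :
    ∃ u : G → F, SpF (N ⊓ CY y₁) u ∧ CmF (N ⊓ CY y₁) u ∧
      ma (dl F x) * ma w = (ma w * ma u) * ma (dl F x) := by
  obtain ⟨u, h1, h2, h3⟩ := h.eqv x hx
  refine ⟨u, h1, h2, ?_⟩
  rw [← ma_mul w u, ← h3, ← ma_mul, ← ma_mul]
  apply congrArg ma
  funext t
  rw [H75.mulF_dl_left, H75.mulF_dl_right]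
  congr 1
  group

end rep

/-- STW -/
theorem stw : StwStmt := by
  intro ℓ hℓ F _ hF G _ _ n N P y₁ b w h V _ _ ρ
  have hq : ℓ ^ (n + 1) ≠ 0 := pow_ne_zero _ hℓ.out.ne_zero
  have hq2 : 2 ≤ ℓ ^ (n + 1) := by
    calc 2 ≤ ℓ := hℓ.out.two_le
      _ = ℓ ^ 1 := (pow_one _).symm
      _ ≤ ℓ ^ (n + 1) := Nat.pow_le_pow_right hℓ.out.pos (by omega)
  have hu := h.ums
  have hA : ∀ a : G → F, evV ρ a = ρ.asAlgebraHom (ma a) := evV_eq ρ
  have hx : ∀ x : G, ρ x = ρ.asAlgebraHom (ma (dl F x)) := by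
    intro x
    rw [← hA, evV_dl]
  obtain ⟨φ, hφ⟩ : ∃ φ : MonoidAlgebra F G →ₐ[F] Module.End F V, φ = ρ.asAlgebraHom := ⟨_, rfl⟩
  rw [← hφ] at hA hx
  have c1 : ∀ x ∈ NY y₁, ∀ v, evV ρ (bY y₁ b) (ρ x v) = ρ x (evV ρ (bY y₁ b) v) := by
    intro x hx' v
    rw [hA, hx, ← Module.End.mul_apply, ← Module.End.mul_apply, ← map_mul, ← map_mul,
      dl_comm (bY_conj h.idem.1 hx')]
  have c2 : ∀ v, evV ρ (bY y₁ b) (evV ρ (bY y₁ b) v) = evV ρ (bY y₁ b) v := by
    intro v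
    rw [hA, ← Module.End.mul_apply, ← map_mul, ums_bb hu]
  have c3 : ∀ v, evV ρ (bY y₁ b) (evV ρ w v) = evV ρ w v := by
    intro v
    rw [hA, hA, ← Module.End.mul_apply, ← map_mul, ums_bw hu]
  have c4 : ∀ v, evV ρ w (evV ρ (bY y₁ b) v) = evV ρ w v := by
    intro v
    rw [hA, hA, ← Module.End.mul_apply, ← map_mul, ums_wb hu]
  have c5 : ∀ c ∈ N ⊓ CY y₁, ∀ v, evV ρ w (ρ c v) = ρ c (evV ρ w v) := by
    intro c hc v
    rw [hA, hx, ← Module.End.mul_apply, ← Module.End.mul_apply, ← map_mul, ← map_mul,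
      cmF_comm (spF_dl hc) (ums_cw hu)]
  have c6 : (evV ρ w) ^ (ℓ ^ (n + 1)) = 0 := by
    rw [hA, ← map_pow, ums_zero hu hq, map_zero]
  have c7 : ∀ x ∈ NY y₁, ∀ v, evV ρ w v = 0 → evV ρ w (ρ x v) = 0 := by
    intro x hx' v hv
    obtain ⟨u, h1, h2, h3⟩ := d2s_wx h hx'
    have h4 : ma w * ma u = ma u * ma w := (cmF_comm h1 (ums_cw hu)).symm
    rw [hA, hx, ← Module.End.mul_apply, ← map_mul, h3, h4, map_mul, map_mul, Module.End.mul_apply,
      Module.End.mul_apply, ← hA w, hv, map_zero, map_zero]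
  have c10 : Stb (NY y₁) ρ (fixW ρ (bY y₁ b) w) := by
    intro x hx' v hv
    exact ⟨by rw [c1 x hx', hv.1], c7 x hx' v hv.2⟩
  refine ⟨c1, c2, c3, c4, c5, c6, c7, ?_, ?_, c10, ?_⟩
  · rintro _ ⟨v, rfl⟩
    constructor
    · obtain ⟨r, hr⟩ : ∃ r, ℓ ^ (n + 1) - 1 = r + 1 := ⟨ℓ ^ (n + 1) - 2, by omega⟩
      rw [hr, pow_succ', Module.End.mul_apply, c3]
    · rw [← Module.End.mul_apply, ← pow_succ', Nat.sub_add_cancel (by omega), c6]
      rfl
  · intro j x hx' v hv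
    obtain ⟨u, h1, h2, h3⟩ := d2s_xw h hx'
    have h4 : ma w * ma u = ma u * ma w := (cmF_comm h1 (ums_cw hu)).symm
    have h5 : ∀ j : ℕ, ma (dl F x) * ma w ^ j = ma w ^ j * (ma u ^ j * ma (dl F x)) := by
      intro j
      induction j with
      | zero => rw [pow_zero, pow_zero, one_mul, one_mul, mul_one]
      | succ j ih =>
        have h6 : ma w * ma u ^ j = ma u ^ j * ma w := (Commute.pow_right h4 j)
        calc ma (dl F x) * ma w ^ (j + 1) = (ma (dl F x) * ma w ^ j) * ma w := by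
              rw [pow_succ, mul_assoc]
          _ = ma w ^ j * (ma u ^ j * (ma (dl F x) * ma w)) := by rw [ih]; simp only [mul_assoc]
          _ = ma w ^ j * ((ma u ^ j * ma w) * (ma u * ma (dl F x))) := by
              rw [h3]; simp only [mul_assoc]
          _ = ma w ^ j * (ma w * (ma u ^ j * (ma u * ma (dl F x)))) := by
              rw [← h6]; simp only [mul_assoc]
          _ = ma w ^ (j + 1) * (ma u ^ (j + 1) * ma (dl F x)) := by
              rw [pow_succ, pow_succ]; simp only [mul_assoc]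
    obtain ⟨v', rfl⟩ := hv
    refine ⟨φ (ma u ^ j * ma (dl F x)) v', ?_⟩
    rw [hA, hx, ← map_pow, ← Module.End.mul_apply, ← Module.End.mul_apply, ← map_mul, ← map_mul,
      h5]
  · intro v
    have h1 : ℓ ^ n ≠ 0 := pow_ne_zero _ hℓ.out.ne_zero
    have h2 : ma w ^ (ℓ ^ n) = ma (dl F y₁) * ma (bY y₁ b) - ma (bY y₁ b) := by
      rw [← ums_pow_b hu h1, ← ma_pwF, h.pow, ← ma_mul, ← ma_sub]
      apply congrArg ma
      funext g
      rw [Pi.sub_apply, H75.mulF_dl_left]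
    rw [hA w, ← map_pow, h2, map_sub, map_mul, ← hA (bY y₁ b), ← hx]
    rfl

end Pool.Agent.PP.CD2.H20
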